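import Mathlib

/-!
# MP_916daf_an : an `L^∞`-bounded form semigroup without any contractivity weight

`Ω` has three points and carries the counting measure, `V = L²(Ω)`,
`a(u,v) = (∑ u) * conj (∑ v)`.
-/

namespace Pool.Agent.Results.MP_916daf_an.NoWeight

open MeasureTheory Filter Topology

noncomputable section

variable {Ω : Type} [MeasurableSpace Ω] {μ : Measure Ω}

/-- the complex Hilbert space `L²(Ω, μ)` -/
abbrev L2 (μ : Measure Ω) : Type := Lp ℂ 2 μ

/-- bounded linear operators on `L²(Ω, μ)` -/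
abbrev Op (μ : Measure Ω) : Type := L2 μ →L[ℂ] L2 μ

/-- sesquilinear forms on the linear subspace `V` of `L²(Ω, μ)`: linear in the first and
antilinear in the second argument -/
abbrev SForm (V : Submodule ℂ (L2 μ)) : Type := V →ₗ[ℂ] V →ₗ⋆[ℂ] ℂ

/-- A sesquilinear form `a` (linear in the first, antilinear in the second argument) on a linear
subspace `V` of `L²(Ω, μ)`. -/
structure Form (μ : Measure Ω) where
  /-- the form domain -/
  V : Submodule ℂ (L2 μ)
  /-- the form -/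
  a : SForm V

/-- the value `a(u, v)` -/
def Form.val (F : Form μ) (u v : F.V) : ℂ := F.a u v

/-- The form domain is dense in `L²(Ω, μ)`. -/
def DenselyDefined (F : Form μ) : Prop := Dense (F.V : Set (L2 μ))

/-- The form is sectorial: for some `θ ∈ [0, π/2)` every value `a(u,u)` is zero or has
argument of modulus at most `θ`. -/
def Sectorial (F : Form μ) : Prop :=
  ∃ θ : ℝ, 0 ≤ θ ∧ θ < Real.pi / 2 ∧ ∀ u : F.V, F.val u u = 0 ∨ |Complex.arg (F.val u u)| ≤ θ

/-- The form norm `‖u‖_a = (Re a(u,u) + ‖u‖₂²)^{1/2}`. -/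
def formNorm (F : Form μ) (u : F.V) : ℝ :=
  Real.sqrt ((F.val u u).re + ‖(u : L2 μ)‖ ^ 2)

/-- The distance `‖u - v‖_a`. -/
def formDist (F : Form μ) (u v : F.V) : ℝ := formNorm F (u - v)

/-- The form is closed: every sequence of `V` that is Cauchy for `‖·‖_a` converges for
`‖·‖_a` to an element of `V`. -/
def ClosedForm (F : Form μ) : Prop :=
  ∀ u : ℕ → F.V, (∀ ε > 0, ∃ N, ∀ m ≥ N, ∀ n ≥ N, formDist F (u m) (u n) < ε) →
    ∃ v : F.V, Tendsto (fun n => formDist F (u n) v) atTop (𝓝 0)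

/-- The inner product `⟨h, v⟩ = ∫ h * conj v dμ`. -/
def pairing (h v : L2 μ) : ℂ := ∫ x, h x * (starRingEnd ℂ) (v x) ∂μ

/-- The operator `A` associated with the form, as a relation: `u ∈ D(A)` and `A u = h` iff
`u ∈ V` and `a(u, v) = ⟨h, v⟩` for all `v ∈ V`. -/
def Assoc (F : Form μ) (u h : L2 μ) : Prop :=
  ∃ hu : u ∈ F.V, ∀ v : F.V, F.val ⟨u, hu⟩ v = pairing h v

/-- `T` is the strongly continuous semigroup generated by `-A`, with `A` given as a relation. -/
structure IsSemigroupOf (A : L2 μ → L2 μ → Prop) (T : ℝ → Op μ) : Prop where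
  zero : T 0 = 1
  add : ∀ s t, 0 ≤ s → 0 ≤ t → T (s + t) = T s * T t
  cont : ∀ u, ContinuousOn (fun t => T t u) (Set.Ici 0)
  gen : ∀ u h, A u h ↔
    Tendsto (fun t : ℝ => ((t : ℂ)⁻¹) • (T t u - u)) (𝓝[>] 0) (𝓝 (-h))

/-- `L^∞`-boundedness: `‖T(t) f‖_∞ ≤ M ‖f‖_∞` for all `t ≥ 0` and `f ∈ L² ∩ L^∞`. -/
def LinftyBounded (T : ℝ → Op μ) : Prop :=
  ∃ M : ℝ, 1 ≤ M ∧ ∀ t : ℝ, 0 ≤ t → ∀ f : L2 μ, MemLp f ⊤ μ →
    eLpNorm (T t f) ⊤ μ ≤ ENNReal.ofReal M * eLpNorm f ⊤ μ

/-- Admissible weights: measurable, essentially bounded, positive a.e., with essentially bounded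
reciprocal. -/
def Admissible (μ : Measure Ω) (g : Ω → ℝ) : Prop :=
  Measurable g ∧ (∀ᵐ x ∂μ, 0 < g x) ∧ MemLp g ⊤ μ ∧ MemLp (fun x => 1 / g x) ⊤ μ

/-- Contractivity for the weight `g`: `‖g T(t) f‖_∞ ≤ ‖g f‖_∞` for `t ≥ 0`, `f ∈ L² ∩ L^∞`. -/
def ContractiveFor (T : ℝ → Op μ) (g : Ω → ℝ) : Prop :=
  ∀ t : ℝ, 0 ≤ t → ∀ f : L2 μ, MemLp f ⊤ μ →
    eLpNorm (fun x => (g x : ℂ) * (T t f) x) ⊤ μ ≤ eLpNorm (fun x => (g x : ℂ) * f x) ⊤ μ

/-! ### The example -/

/-- counting measure on three points -/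
abbrev cm : Measure (Fin 3) := Measure.count

/-- the space `L²` of three points -/
abbrev H : Type := L2 cm

lemma ae_cm {p : Fin 3 → Prop} : (∀ᵐ x ∂cm, p x) ↔ ∀ x, p x := by
  constructor
  · intro h x
    rw [ae_iff] at h
    by_contra hx
    have h1 : cm {x} ≤ cm {x | ¬ p x} := measure_mono (by
      intro y hy; rw [Set.mem_singleton_iff] at hy; subst hy; exact hx)
    rw [h] at h1
    simp at h1
  · intro h
    exact Eventually.of_forall h

lemma eq_of_ae {f g : Fin 3 → ℂ} (h : f =ᵐ[cm] g) : f = g := by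
  funext x
  exact (ae_cm.1 h) x

/-- a function on three points as an element of `L²` -/
def mk (f : Fin 3 → ℂ) : H := MemLp.toLp f (by
  exact MemLp.of_discrete)

lemma mk_coe (f : Fin 3 → ℂ) : ((mk f : H) : Fin 3 → ℂ) = f :=
  eq_of_ae (MemLp.coeFn_toLp _)

lemma H_ext {f g : H} (h : ∀ x, (f : Fin 3 → ℂ) x = (g : Fin 3 → ℂ) x) : f = g := by
  apply Lp.ext
  exact Eventually.of_forall h

lemma coe_add' (f g : H) (x : Fin 3) : ((f + g : H) : Fin 3 → ℂ) x = f x + g x := by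
  have := eq_of_ae (Lp.coeFn_add f g)
  rw [this]; rfl

lemma coe_sub' (f g : H) (x : Fin 3) : ((f - g : H) : Fin 3 → ℂ) x = f x - g x := by
  have := eq_of_ae (Lp.coeFn_sub f g)
  rw [this]; rfl

lemma coe_smul' (c : ℂ) (f : H) (x : Fin 3) : ((c • f : H) : Fin 3 → ℂ) x = c * f x := by
  have := eq_of_ae (Lp.coeFn_smul c f)
  rw [this]; rfl

/-- the constant function one -/
def e : H := mk (fun _ => 1)

lemma e_coe (x : Fin 3) : (e : Fin 3 → ℂ) x = 1 := by
  unfold e; rw [mk_coe]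

lemma inner_formula (f g : H) : inner ℂ f g = ∑ x, g x * (starRingEnd ℂ) (f x) := by
  rw [L2.inner_def]
  rw [integral_count]
  rfl

/-- the functional `f ↦ ∑ f` -/
def sf : H →L[ℂ] ℂ := innerSL ℂ e

lemma sf_apply (f : H) : sf f = ∑ x, f x := by
  unfold sf
  rw [innerSL_apply_apply, inner_formula]
  simp [e_coe]

/-- `J f = (∑ f) • 1` -/
def J : H →L[ℂ] H := sf.smulRight e

lemma J_apply (f : H) : J f = sf f • e := rfl

lemma sf_e : sf e = 3 := by
  rw [sf_apply]; simp [e_coe]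

lemma sf_J (f : H) : sf (J f) = 3 * sf f := by
  rw [J_apply, map_smul, sf_e, smul_eq_mul]; ring

/-- the coefficient `c(t) = (1 - e^{-3t})/3` -/
def c (t : ℝ) : ℝ := (1 - Real.exp (-(3 * t))) / 3

/-- the semigroup -/
def T (t : ℝ) : H →L[ℂ] H := 1 - (c t : ℂ) • J

lemma T_apply (t : ℝ) (f : H) : T t f = f - (c t : ℂ) • (sf f • e) := rfl

lemma T_coe (t : ℝ) (f : H) (x : Fin 3) :
    ((T t f : H) : Fin 3 → ℂ) x = f x - (c t : ℂ) * ∑ y, f y := by
  rw [T_apply, coe_sub', coe_smul', coe_smul', e_coe, sf_apply, mul_one]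

lemma c_zero : c 0 = 0 := by simp [c]

lemma c_add (s t : ℝ) : c (s + t) = c s + c t - 3 * (c s * c t) := by
  unfold c
  have : -(3 * (s + t)) = -(3 * s) + -(3 * t) := by ring
  rw [this, Real.exp_add]; ring

lemma T_add (s t : ℝ) : T (s + t) = T s * T t := by
  ext1 f
  apply H_ext
  intro x
  rw [mul_apply_eq_comp, T_coe, T_coe, T_coe]
  have : ∑ y, ((T t f : H) : Fin 3 → ℂ) y = (∑ y, f y) - 3 * (c t : ℂ) * ∑ y, f y := by
    simp_rw [T_coe]
    rw [Finset.sum_sub_distrib]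
    simp; ring
  rw [this, c_add]
  push_cast
  ring

lemma c_hasDeriv : HasDerivAt c 1 0 := by
  unfold c
  have h1 : HasDerivAt (fun t : ℝ => -(3 * t)) (-(3 * 1)) 0 :=
    ((hasDerivAt_id (0 : ℝ)).const_mul 3).neg
  have h2 := ((h1.exp).const_sub 1).div_const 3
  have h3 : -(Real.exp (-(3 * 0)) * -(3 * 1)) / 3 = (1 : ℝ) := by simp
  rw [h3] at h2
  exact h2

lemma c_cont : Continuous c := by
  unfold c; fun_prop

lemma T_cont (f : H) : Continuous (fun t => T t f) := by
  have : (fun t => T t f) = fun t => f - (c t : ℂ) • (sf f • e) := by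
    funext t; exact T_apply t f
  rw [this]
  have h := Complex.continuous_ofReal.comp c_cont
  exact continuous_const.sub (h.smul continuous_const)

lemma T_deriv (f : H) :
    Tendsto (fun t : ℝ => ((t : ℂ)⁻¹) • (T t f - f)) (𝓝[>] 0) (𝓝 (-(J f))) := by
  have h1 : Tendsto (fun t : ℝ => t⁻¹ * c t) (𝓝[>] 0) (𝓝 1) := by
    have := c_hasDeriv.tendsto_slope_zero_right
    simpa [c_zero] using this
  have h2 : (fun t : ℝ => ((t : ℂ)⁻¹) • (T t f - f)) =
      fun t : ℝ => -(((t⁻¹ * c t : ℝ) : ℂ) • J f) := by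
    funext t
    rw [T_apply, J_apply]
    push_cast
    rw [sub_sub_cancel_left, smul_neg, smul_smul]
  rw [h2]
  have h3 : Tendsto (fun t : ℝ => ((t⁻¹ * c t : ℝ) : ℂ)) (𝓝[>] 0) (𝓝 ((1 : ℝ) : ℂ)) :=
    (Complex.continuous_ofReal.tendsto 1).comp h1
  have h4 := (h3.smul_const (J f)).neg
  simpa using h4

/-- the form on `V = ⊤` -/
def F : Form cm where
  V := ⊤
  a := LinearMap.mk₂'ₛₗ (RingHom.id ℂ) (starRingEnd ℂ)
    (fun u v => sf (u : H) * (starRingEnd ℂ) (sf (v : H)))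
    (by intro u v w; simp [add_mul])
    (by intro k u v; simp [mul_assoc])
    (by intro u v w; simp [mul_add])
    (by intro k u v; simp; ring)

lemma a_apply (u v : F.V) :
    F.val u v = sf (u : H) * (starRingEnd ℂ) (sf (v : H)) := rfl

lemma a_self (u : F.V) : F.val u u = ((‖sf (u : H)‖ ^ 2 : ℝ) : ℂ) := by
  rw [a_apply, Complex.mul_conj, Complex.normSq_eq_norm_sq]

lemma a_sectorial : Sectorial F := by
  refine ⟨0, le_rfl, by positivity, fun u => Or.inr ?_⟩
  rw [a_self, Complex.arg_ofReal_of_nonneg (by positivity)]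
  simp

lemma formNorm_eq (u : F.V) :
    formNorm F u = Real.sqrt (‖sf (u : H)‖ ^ 2 + ‖(u : H)‖ ^ 2) := by
  unfold formNorm
  rw [a_self, Complex.ofReal_re]

lemma a_closed : ClosedForm F := by
  intro u hu
  have hc : CauchySeq (fun n => (u n : H)) := by
    rw [Metric.cauchySeq_iff]
    intro ε hε
    obtain ⟨N, hN⟩ := hu ε hε
    refine ⟨N, fun m hm n hn => ?_⟩
    have h1 := hN m hm n hn
    unfold formDist at h1
    rw [formNorm_eq] at h1
    rw [dist_eq_norm]
    refine lt_of_le_of_lt ?_ h1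
    apply Real.le_sqrt_of_sq_le
    have : ((u m - u n : F.V) : H) = (u m : H) - (u n : H) := rfl
    rw [this]
    nlinarith [sq_nonneg ‖sf ((u m : H) - (u n : H))‖]
  obtain ⟨v, hv⟩ := cauchySeq_tendsto_of_complete hc
  refine ⟨⟨v, Submodule.mem_top⟩, ?_⟩
  have h1 : Tendsto (fun n => (u n : H) - v) atTop (𝓝 0) := by
    have := hv.sub_const v
    simpa using this
  have h2 : Continuous (fun w : H => Real.sqrt (‖sf w‖ ^ 2 + ‖w‖ ^ 2)) := by fun_prop
  have h3 := (h2.tendsto 0).comp h1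
  have h4 : (fun n => formDist F (u n) ⟨v, Submodule.mem_top⟩) =
      (fun w : H => Real.sqrt (‖sf w‖ ^ 2 + ‖w‖ ^ 2)) ∘ (fun n => (u n : H) - v) := by
    funext n
    unfold formDist
    rw [formNorm_eq]
    rfl
  rw [h4]
  simpa using h3

lemma assoc_iff (u h : H) : Assoc F u h ↔ h = J u := by
  constructor
  · rintro ⟨_, hu⟩
    have key : ∀ v : H, inner ℂ v h = inner ℂ v (J u) := by
      intro v
      have h1 := hu ⟨v, Submodule.mem_top⟩
      rw [a_apply] at h1
      unfold pairing at h1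
      rw [integral_count] at h1
      rw [inner_formula, ← h1, inner_formula]
      simp only [sf_apply, J_apply]
      simp_rw [coe_smul', e_coe]
      rw [map_sum, Finset.mul_sum]
      simp
    have := ext_inner_left ℂ key
    exact this
  · rintro rfl
    refine ⟨Submodule.mem_top, ?_⟩
    intro v
    unfold pairing
    rw [a_apply, integral_count]
    simp only [sf_apply, J_apply]
    simp_rw [coe_smul', e_coe]
    rw [map_sum, Finset.mul_sum]
    simp

lemma T_isSemigroup : IsSemigroupOf (Assoc F) T := by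
  refine ⟨?_, fun s t _ _ => T_add s t, fun u => (T_cont u).continuousOn, ?_⟩
  · simp [T, c_zero]
  · intro u h
    rw [assoc_iff]
    constructor
    · rintro rfl
      exact T_deriv u
    · intro hh
      have := tendsto_nhds_unique hh (T_deriv u)
      exact neg_injective this

lemma norm_le_iff (f : Fin 3 → ℂ) (C : ℝ) (hC : 0 ≤ C) :
    eLpNorm f ⊤ cm ≤ ENNReal.ofReal C ↔ ∀ x, ‖f x‖ ≤ C := by
  rw [eLpNorm_exponent_top]
  unfold eLpNormEssSup
  constructor
  · intro h x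
    have h1 := ae_cm.1 (ENNReal.ae_le_essSup (μ := cm) (fun x => ‖f x‖ₑ)) x
    have h2 := h1.trans h
    rw [← ofReal_norm] at h2
    exact (ENNReal.ofReal_le_ofReal_iff hC).1 h2
  · intro h
    refine essSup_le_of_ae_le _ (Eventually.of_forall fun x => ?_)
    show ‖f x‖ₑ ≤ _
    rw [← ofReal_norm]
    exact ENNReal.ofReal_le_ofReal (h x)

lemma exists_norm (f : Fin 3 → ℂ) :
    ∃ C : ℝ, 0 ≤ C ∧ eLpNorm f ⊤ cm = ENNReal.ofReal C ∧ ∀ x, ‖f x‖ ≤ C := by
  have h : eLpNorm f ⊤ cm ≠ ⊤ := (MemLp.of_discrete (f := f)).2.ne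
  refine ⟨(eLpNorm f ⊤ cm).toReal, ENNReal.toReal_nonneg, (ENNReal.ofReal_toReal h).symm, ?_⟩
  rw [← norm_le_iff f _ ENNReal.toReal_nonneg, ENNReal.ofReal_toReal h]

lemma c_nonneg {t : ℝ} (ht : 0 ≤ t) : 0 ≤ c t := by
  unfold c
  have : Real.exp (-(3 * t)) ≤ 1 := Real.exp_le_one_iff.2 (by linarith)
  linarith

lemma c_le (t : ℝ) : c t ≤ 1 / 3 := by
  unfold c
  have := Real.exp_pos (-(3 * t))
  linarith

lemma c_pos : 0 < c 1 := by
  unfold c
  have : Real.exp (-(3 * 1)) < 1 := Real.exp_lt_one_iff.2 (by norm_num)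
  apply div_pos _ (by norm_num)
  linarith

lemma T_bounded : LinftyBounded T := by
  refine ⟨2, by norm_num, ?_⟩
  intro t ht f _
  obtain ⟨C, hC, h1, h2⟩ := exists_norm f
  rw [h1, ← ENNReal.ofReal_mul (by norm_num)]
  rw [norm_le_iff _ _ (by positivity)]
  intro x
  rw [T_coe]
  have h3 : ‖∑ y, f y‖ ≤ 3 * C := by
    refine (norm_sum_le _ _).trans ?_
    refine (Finset.sum_le_sum (fun y _ => h2 y)).trans ?_
    simp
  have h4 : ‖(c t : ℂ) * ∑ y, f y‖ ≤ 1 / 3 * (3 * C) := by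
    rw [norm_mul]
    have h5 : ‖(c t : ℂ)‖ = c t := by
      rw [Complex.norm_real, Real.norm_eq_abs, abs_of_nonneg (c_nonneg ht)]
    rw [h5]
    exact mul_le_mul (c_le t) h3 (norm_nonneg _) (by norm_num)
  calc ‖f x - (c t : ℂ) * ∑ y, f y‖ ≤ ‖f x‖ + ‖(c t : ℂ) * ∑ y, f y‖ := norm_sub_le _ _
    _ ≤ C + 1 / 3 * (3 * C) := add_le_add (h2 x) h4
    _ = 2 * C := by ring

lemma not_contractive (g : Fin 3 → ℝ) (hg : Admissible cm g) : ¬ ContractiveFor T g := by
  intro hcon
  have hpos : ∀ x, 0 < g x := ae_cm.1 hg.2.1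
  obtain ⟨i, -, hi⟩ := Finset.exists_max_image (Finset.univ : Finset (Fin 3)) g ⟨0, by simp⟩
  have hi' : ∀ j, g j ≤ g i := fun j => hi j (Finset.mem_univ j)
  -- the test function
  let f0 : Fin 3 → ℂ := fun j => if j = i then ((1 / g i : ℝ) : ℂ) else ((-(1 / g j) : ℝ) : ℂ)
  have h1 := hcon 1 zero_le_one (mk f0) (MemLp.of_discrete)
  have h2 : eLpNorm (fun x => (g x : ℂ) * (mk f0 : H) x) ⊤ cm ≤ ENNReal.ofReal 1 := by
    rw [norm_le_iff _ _ zero_le_one]
    intro x
    rw [mk_coe]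
    by_cases hx : x = i
    · subst hx
      simp only [f0, if_true]
      rw [← Complex.ofReal_mul, Complex.norm_real, mul_one_div_cancel (hpos x).ne']
      simp
    · simp only [f0, if_neg hx]
      rw [← Complex.ofReal_mul, Complex.norm_real, mul_neg, mul_one_div_cancel (hpos x).ne']
      simp
  have h3 := h1.trans h2
  rw [norm_le_iff _ _ zero_le_one] at h3
  have h4 := h3 i
  rw [T_coe, mk_coe] at h4
  -- the sum of `f0`
  have h5 : (∑ y, f0 y) = ((2 / g i - ∑ y, 1 / g y : ℝ) : ℂ) := by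
    have : ∀ y, f0 y = (((if y = i then 2 / g i else 0) - 1 / g y : ℝ) : ℂ) := by
      intro y
      by_cases hy : y = i
      · subst hy
        simp only [f0, if_true]
        congr 1
        ring
      · simp only [f0, if_neg hy]
        congr 1
        ring
    simp_rw [this]
    rw [← Complex.ofReal_sum, Finset.sum_sub_distrib]
    simp
  have h6 : f0 i = ((1 / g i : ℝ) : ℂ) := by simp [f0]
  rw [h5, h6, ← Complex.ofReal_mul, ← Complex.ofReal_sub, ← Complex.ofReal_mul,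
    Complex.norm_real, Real.norm_eq_abs] at h4
  have h7 := (le_abs_self _).trans h4
  have hgi := hpos i
  have h8 : ∑ y, 1 / g y ≥ 3 / g i := by
    have : ∑ y : Fin 3, 1 / g y ≥ ∑ _y : Fin 3, 1 / g i :=
      Finset.sum_le_sum (fun y _ => one_div_le_one_div_of_le (hpos y) (hi' y))
    refine le_trans (le_of_eq ?_) this
    simp; ring
  have h9 : g i * (1 / g i - c 1 * (2 / g i - ∑ y, 1 / g y)) ≥ 1 + c 1 := by
    have h10 : 2 / g i - ∑ y, 1 / g y ≤ - (1 / g i) := by
      have : (3 : ℝ) / g i = 2 / g i + 1 / g i := by ring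
      linarith
    have h11 : c 1 * (2 / g i - ∑ y, 1 / g y) ≤ c 1 * (-(1 / g i)) :=
      mul_le_mul_of_nonneg_left h10 c_pos.le
    have h12 : g i * (1 / g i - c 1 * (2 / g i - ∑ y, 1 / g y)) ≥
        g i * (1 / g i - c 1 * (-(1 / g i))) :=
      mul_le_mul_of_nonneg_left (by linarith) hgi.le
    have h13 : g i * (1 / g i - c 1 * (-(1 / g i))) = 1 + c 1 := by
      field_simp
      ring
    linarith
  linarith [c_pos]

/-- There is a `σ`-finite measure space and a densely defined closed sectorial form on its `L²`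
whose semigroup is `L^∞`-bounded but is contractive for no admissible weight. -/
theorem result :
    ∃ (Ω : Type) (_ : MeasurableSpace Ω) (μ : Measure Ω) (_ : SigmaFinite μ)
      (F : Form μ) (T : ℝ → Op μ),
      DenselyDefined F ∧ Sectorial F ∧ ClosedForm F ∧
      IsSemigroupOf (Assoc F) T ∧ LinftyBounded T ∧
      ∀ g : Ω → ℝ, Admissible μ g → ¬ ContractiveFor T g := by
  refine ⟨Fin 3, inferInstance, cm, inferInstance, F, T, ?_, a_sectorial, a_closed,
    T_isSemigroup, T_bounded, not_contractive⟩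
  unfold DenselyDefined F
  simp

end

end Pool.Agent.Results.MP_916daf_an.NoWeight
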